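import Pool.Agent.Helper99.SZ.Stmts
import Pool.Agent.Helper60.BK.DISCP

/-!
# Module FLW: the cubic field of an elliptic curve
-/

set_option autoImplicit false

namespace Pool.Helper99.SZ

open NumberField

theorem flw_dis (W : WeierstrassCurve ℤ) :
    dis W.b₂ (8 * W.b₄) (16 * W.b₆) = 256 * W.Δ ∧ W.b₂ ^ 2 - 3 * (8 * W.b₄) = W.c₄ := by
  constructor
  · simp only [dis, WeierstrassCurve.Δ, WeierstrassCurve.b₂, WeierstrassCurve.b₄,
      WeierstrassCurve.b₆, WeierstrassCurve.b₈]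
    ring
  · simp only [WeierstrassCurve.c₄]
    ring

/-- the two cubic polynomials -/
theorem flw_poly {F : Type} [Field F] (W : WeierstrassCurve ℤ) (t : F) :
    (3 * t + (W.b₂ : F)) ^ 3 - 3 * (W.c₄ : F) * (3 * t + (W.b₂ : F)) + 2 * ((-W.c₆ : ℤ) : F) =
      27 * (t ^ 3 + (W.b₂ : F) * t ^ 2 + ((8 * W.b₄ : ℤ) : F) * t + ((16 * W.b₆ : ℤ) : F)) := by
  simp only [WeierstrassCurve.c₄, WeierstrassCurve.c₆]
  push_cast
  ring

theorem st_FLW (hNNC : ST_NNC) (hCU1 : ST_CU1) (hFLD : BK.ST_FLD) : ST_FLW := by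
  intro W hΔ hirr
  refine ⟨(flw_dis W).1, (flw_dis W).2, ?_⟩
  have hn : ∀ n : ℤ, n ^ 3 - 3 * W.c₄ * n + 2 * (-W.c₆) ≠ 0 := by
    intro n hn
    have h1 := flw_poly (F := ℚ) W (((n : ℚ) - W.b₂) / 3)
    have h2 : 3 * (((n : ℚ) - W.b₂) / 3) + (W.b₂ : ℚ) = n := by ring
    rw [h2] at h1
    have h3 : (n : ℚ) ^ 3 - 3 * (W.c₄ : ℚ) * n + 2 * ((-W.c₆ : ℤ) : ℚ) = 0 := by
      exact_mod_cast congrArg (Int.cast : ℤ → ℚ) hn
    rw [h3] at h1
    apply hirr (((n : ℚ) - W.b₂) / 3 / 4)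
    push_cast at h1
    linear_combination (-1 / 432 : ℚ) * h1
  obtain ⟨K, iF, iN, β', hdeg, hβ', hirr', -⟩ := hFLD W.c₄ (-W.c₆) hn
  have h3 : (3 : K) ≠ 0 := by norm_num
  have hβeq : ((β' - (W.b₂ : K)) / 3) ^ 3 + (W.b₂ : K) * ((β' - (W.b₂ : K)) / 3) ^ 2 +
      ((8 * W.b₄ : ℤ) : K) * ((β' - (W.b₂ : K)) / 3) + ((16 * W.b₆ : ℤ) : K) = 0 := by
    have h1 := flw_poly (F := K) W ((β' - (W.b₂ : K)) / 3)
    have h2 : 3 * ((β' - (W.b₂ : K)) / 3) + (W.b₂ : K) = β' := by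
      rw [mul_div_cancel₀ _ h3]
      ring
    rw [h2, hβ'] at h1
    have h27 : (27 : K) ≠ 0 := by norm_num
    exact (mul_eq_zero.1 h1.symm).resolve_left h27
  obtain ⟨κ, hκ⟩ := hCU1.1 K ((β' - (W.b₂ : K)) / 3) W.b₂ (8 * W.b₄) (16 * W.b₆) hβeq
  have hcard : Fintype.card (K →+* ℂ) = 3 := by
    rw [NumberField.Embeddings.card K ℂ, hdeg]
  refine ⟨K, iF, iN, (β' - (W.b₂ : K)) / 3, κ, (Fintype.equivFinOfCardEq hcard).symm,
    ⟨hdeg, hβeq, ?_, hκ⟩, Equiv.injective _, ?_⟩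
  · intro q hq
    apply hirr' (3 * q + W.b₂)
    rw [map_add, map_mul, map_ofNat, map_intCast, ← hq, mul_div_cancel₀ _ h3]
    ring
  · have hd : -(1728 * W.Δ) ≠ 0 := by
      intro h
      apply hΔ
      omega
    have hxy : (-W.c₆) ^ 2 = W.c₄ ^ 3 + -(1728 * W.Δ) := by
      have := W.c_relation
      linarith
    obtain ⟨e, x', y', M, r, he, hM, hx, hy, hM1, hM2, hN⟩ := BK.st_ARI W.c₄ (-W.c₆) _ hd hxy
    have heK : (e : K) ≠ 0 := by exact_mod_cast he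
    have hβ2 : (β' / e) ^ 3 - 3 * (x' : K) * (β' / e) + 2 * (y' : K) = 0 := by
      have h1 : (W.c₄ : K) = (e : K) ^ 2 * x' := by exact_mod_cast congrArg (Int.cast : ℤ → K) hx
      have h2 : ((-W.c₆ : ℤ) : K) = (e : K) ^ 3 * y' := by
        exact_mod_cast congrArg (Int.cast : ℤ → K) hy
      rw [h1, h2] at hβ'
      have h4 : (e : K) ^ 3 * ((β' / e) ^ 3 - 3 * (x' : K) * (β' / e) + 2 * (y' : K)) = 0 := by
        rw [← hβ']
        field_simp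
      exact (mul_eq_zero.1 h4).resolve_left (pow_ne_zero 3 heK)
    have hq2 : ∀ q : ℚ, β' / e ≠ algebraMap ℚ K q := by
      intro q hq
      apply hirr' (q * e)
      rw [map_mul, map_intCast, ← hq, div_mul_cancel₀ _ heK]
    have h5 := BK.st_DISCP K hdeg (β' / e) x' y' M r hβ2 hq2 hM hM1 hM2
    have h6 : |((x' ^ 3 - y' ^ 2 : ℤ) : ℝ)| ≤ (BK.NN W.c₄ (-(1728 * W.Δ)) : ℝ) * (M : ℝ) ^ 2 := by
      exact_mod_cast hN
    have h7 : (BK.NN W.c₄ (-(1728 * W.Δ)) : ℝ) ≤ 36 * (cond W : ℝ) := by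
      exact_mod_cast hNNC W hΔ
    have hM2 : (0 : ℝ) < (M : ℝ) ^ 2 := by
      have : (M : ℝ) ≠ 0 := by exact_mod_cast hM
      positivity
    have h8 : |(NumberField.discr K : ℝ)| * (M : ℝ) ^ 2 ≤
        (108 * (36 * (cond W : ℝ))) * (M : ℝ) ^ 2 := by
      calc |(NumberField.discr K : ℝ)| * (M : ℝ) ^ 2 ≤ 108 * |((x' ^ 3 - y' ^ 2 : ℤ) : ℝ)| := h5
        _ ≤ 108 * ((BK.NN W.c₄ (-(1728 * W.Δ)) : ℝ) * (M : ℝ) ^ 2) := by linarith
        _ ≤ 108 * ((36 * (cond W : ℝ)) * (M : ℝ) ^ 2) := by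
            have := mul_le_mul_of_nonneg_right h7 hM2.le
            linarith
        _ = _ := by ring
    have h9 := le_of_mul_le_mul_right h8 hM2
    have h10 : (0 : ℝ) ≤ cond W := Nat.cast_nonneg _
    linarith

end Pool.Helper99.SZ
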